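import Mathlib

/-!
# Aleksandrov's variational lemma (core, without the team definitions)
-/

set_option autoImplicit false

open MeasureTheory Set Module Filter
open scoped Pointwise NNReal ENNReal Topology

noncomputable section

namespace Pool.Agent.Helper84.MB

variable {G : Type*} [NormedAddCommGroup G] [NormedSpace ℝ G] [FiniteDimensional ℝ G]
  [MeasurableSpace G] [BorelSpace G] (μ : Measure G) [μ.IsAddHaarMeasure]

omit [FiniteDimensional ℝ G] [MeasurableSpace G] [BorelSpace G] in
theorem mem_smul_iff_gauge {A : Set G} (hc : Convex ℝ A) (hcl : IsClosed A) (hA : A ∈ 𝓝 (0 : G))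
    {t : ℝ} (ht : 0 < t) (x : G) : x ∈ t • A ↔ gauge A x ≤ t := by
  rw [mem_smul_set_iff_inv_smul_mem₀ ht.ne']
  have h := gauge_le_one_iff_mem_closure hc hA (x := t⁻¹ • x)
  rw [hcl.closure_eq, gauge_smul_of_nonneg (inv_nonneg.2 ht.le), smul_eq_mul,
    inv_mul_le_iff₀ ht, mul_one] at h
  exact h.symm

theorem lint_gauge {A : Set G} (hc : Convex ℝ A) (hcl : IsClosed A) (hA : A ∈ 𝓝 (0 : G)) :
    ∫⁻ x, ENNReal.ofReal (Real.exp (-gauge A x)) ∂μ =
      ENNReal.ofReal ((finrank ℝ G).factorial : ℝ) * μ A := by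
  have hcont : Continuous (gauge A) := continuous_gauge hc hA
  set n := finrank ℝ G with hn
  have hmeas : MeasurableSet {p : G × ℝ | gauge A p.1 ≤ p.2} :=
    measurableSet_le (hcont.measurable.comp measurable_fst) measurable_snd
  have h1 : ∀ x : G, ENNReal.ofReal (Real.exp (-gauge A x)) =
      ∫⁻ t : ℝ, ({p : G × ℝ | gauge A p.1 ≤ p.2}.indicator
        (fun p => ENNReal.ofReal (Real.exp (-p.2)))) (x, t) := by
    intro x
    have e1 : ∀ t : ℝ, ({p : G × ℝ | gauge A p.1 ≤ p.2}.indicator
        (fun p => ENNReal.ofReal (Real.exp (-p.2)))) (x, t) =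
        (Ici (gauge A x)).indicator (fun t => ENNReal.ofReal (Real.exp (-t))) t := by
      intro t
      by_cases h : gauge A x ≤ t
      · rw [indicator_of_mem (by simpa using h), indicator_of_mem (by simpa using h)]
      · rw [indicator_of_notMem (by simpa using h), indicator_of_notMem (by simpa using h)]
    simp_rw [e1]
    rw [lintegral_indicator measurableSet_Ici, setLIntegral_congr Ioi_ae_eq_Ici.symm,
      ← ofReal_integral_eq_lintegral_ofReal]
    · rw [integral_exp_neg_Ioi]
    · exact (integrableOn_exp_neg_Ioi (gauge A x))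
    · exact Eventually.of_forall fun t => (Real.exp_pos _).le
  simp_rw [h1]
  rw [lintegral_lintegral_swap]
  · have h2 : ∀ t : ℝ, (∫⁻ x : G, ({p : G × ℝ | gauge A p.1 ≤ p.2}.indicator
        (fun p => ENNReal.ofReal (Real.exp (-p.2)))) (x, t) ∂μ) =
        ENNReal.ofReal (Real.exp (-t)) * μ {x | gauge A x ≤ t} := by
      intro t
      have e1 : ∀ x : G, ({p : G × ℝ | gauge A p.1 ≤ p.2}.indicator
          (fun p => ENNReal.ofReal (Real.exp (-p.2)))) (x, t) =
          ({x | gauge A x ≤ t}.indicator (fun _ => ENNReal.ofReal (Real.exp (-t)))) x := by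
        intro x
        by_cases h : gauge A x ≤ t
        · rw [indicator_of_mem (by simpa using h), indicator_of_mem (by simpa using h)]
        · rw [indicator_of_notMem (by simpa using h), indicator_of_notMem (by simpa using h)]
      simp_rw [e1]
      rw [lintegral_indicator (measurableSet_le hcont.measurable measurable_const),
        setLIntegral_const]
    simp_rw [h2]
    have h3 : (fun t : ℝ => ENNReal.ofReal (Real.exp (-t)) * μ {x | gauge A x ≤ t}) =ᵐ[volume]
        (Ioi (0 : ℝ)).indicator (fun t => ENNReal.ofReal (Real.exp (-t) * t ^ n) * μ A) := by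
      have hne : ∀ᵐ t : ℝ, t ≠ 0 := by
        rw [ae_iff]; simp
      filter_upwards [hne] with t ht
      rcases lt_or_gt_of_ne ht with h | h
      · rw [indicator_of_notMem (by simpa using h.le)]
        have : {x : G | gauge A x ≤ t} = ∅ := by
          ext x
          simp only [mem_ofPred_eq, mem_empty_iff_false, iff_false, not_le]
          exact lt_of_lt_of_le h (gauge_nonneg x)
        rw [this]; simp
      · rw [indicator_of_mem (by simpa using h)]
        have : {x : G | gauge A x ≤ t} = t • A := by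
          ext x
          rw [mem_smul_iff_gauge hc hcl hA h]; rfl
        rw [this, Measure.addHaar_smul, ENNReal.ofReal_mul (Real.exp_pos _).le, ← hn,
          abs_of_pos (pow_pos h n), mul_assoc]
    rw [lintegral_congr_ae h3, lintegral_indicator measurableSet_Ioi, lintegral_mul_const'']
    · congr 1
      rw [← ofReal_integral_eq_lintegral_ofReal]
      · congr 1
        have := Real.Gamma_eq_integral (s := (n : ℝ) + 1) (by positivity)
        rw [Real.Gamma_nat_eq_factorial] at this
        rw [this]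
        refine setIntegral_congr_fun measurableSet_Ioi fun t ht => ?_
        simp
      · have := Real.GammaIntegral_convergent (s := (n : ℝ) + 1) (by positivity)
        refine this.congr_fun (fun t ht => ?_) measurableSet_Ioi
        simp
      · refine (ae_restrict_iff' measurableSet_Ioi).2 (Eventually.of_forall fun t ht => ?_)
        have : (0 : ℝ) < t := ht
        positivity
    · exact (Measurable.ennreal_ofReal (by fun_prop)).aemeasurable
  · exact ((Measurable.ennreal_ofReal (by fun_prop)).indicator hmeas).aemeasurable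

theorem integrable_gauge {A : Set G} (hc : Convex ℝ A) (hcl : IsCompact A)
    (hA : A ∈ 𝓝 (0 : G)) : Integrable (fun x => Real.exp (-gauge A x)) μ := by
  have hcont : Continuous (gauge A) := continuous_gauge hc hA
  refine ⟨(Real.continuous_exp.comp hcont.neg).aestronglyMeasurable, ?_⟩
  rw [hasFiniteIntegral_iff_ofReal (Eventually.of_forall fun x => (Real.exp_pos _).le),
    lint_gauge μ hc hcl.isClosed hA]
  exact ENNReal.mul_lt_top ENNReal.ofReal_lt_top hcl.measure_lt_top

theorem int_gauge {A : Set G} (hc : Convex ℝ A) (hcl : IsCompact A)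
    (hA : A ∈ 𝓝 (0 : G)) : ∫ x, Real.exp (-gauge A x) ∂μ =
      ((finrank ℝ G).factorial : ℝ) * (μ A).toReal := by
  have hcont : Continuous (gauge A) := continuous_gauge hc hA
  have hm : AEStronglyMeasurable (fun x => Real.exp (-gauge A x)) μ :=
    (Real.continuous_exp.comp hcont.neg).aestronglyMeasurable
  rw [integral_eq_lintegral_of_nonneg_ae (Eventually.of_forall fun x => (Real.exp_pos _).le) hm,
    lint_gauge μ hc hcl.isClosed hA, ENNReal.toReal_mul, ENNReal.toReal_ofReal (by positivity)]

/-- the inner parallel set of `B` relative to `ε M` -/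
def inn' (B M : Set G) (ε : ℝ) : Set G := {x | ∀ m ∈ M, x + ε • m ∈ B}

omit [FiniteDimensional ℝ G] [MeasurableSpace G] [BorelSpace G] in
/-- the pointwise estimate at a point of differentiability -/
theorem pw {B M : Set G} (hc : Convex ℝ B) (hB : B ∈ 𝓝 (0 : G)) (hcl : IsClosed B)
    (hM : IsCompact M) (hM0 : (0 : G) ∈ M) {x : G} (hx : 0 < gauge B x)
    (hd : DifferentiableAt ℝ (gauge B) x) {η : ℝ} (hη : 0 < η) :
    ∀ᶠ ε in 𝓝[>] (0 : ℝ), gauge (inn' B M ε) x + gauge (B + ε • M) x ≤
      2 * gauge B x + η * ε := by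
  set N := gauge B x with hN
  set u := fderiv ℝ (gauge B) x with hu
  obtain ⟨m0, hm0, hmax⟩ := hM.exists_isMaxOn ⟨0, hM0⟩ u.continuous.continuousOn
  set h := u m0 with hh
  have hmax' : ∀ m ∈ M, u m ≤ h := fun m hm => hmax hm
  obtain ⟨C, hC0, hC⟩ : ∃ C : ℝ, 0 < C ∧ ∀ m ∈ M, ‖m‖ ≤ C := by
    obtain ⟨C, hC⟩ := hM.isBounded.exists_norm_le
    exact ⟨max C 1, by positivity, fun m hm => (hC m hm).trans (le_max_left _ _)⟩
  set η' := η / (2 * N) with hη'
  have hη'0 : 0 < η' := by positivity
  set c := η' / (2 * C) with hc'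
  have hc0 : 0 < c := by positivity
  have hcC : c * C = η' / 2 := by rw [hc']; field_simp
  -- differentiability
  have hd' : HasFDerivAt (gauge B) u x := hd.hasFDerivAt
  have hlo := hd'.isLittleO.def hc0
  have hlo2 : ∀ᶠ y in 𝓝 (0 : G), gauge B (x + y) ≤ N + u y + c * ‖y‖ := by
    have ht : Tendsto (fun y : G => x + y) (𝓝 0) (𝓝 x) := by
      have : Continuous fun y : G => x + y := by fun_prop
      simpa using this.tendsto 0
    filter_upwards [ht.eventually hlo] with y hy
    have : ‖gauge B (x + y) - gauge B x - u (x + y - x)‖ ≤ c * ‖x + y - x‖ := hy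
    rw [add_sub_cancel_left] at this
    have h2 := (abs_le.1 (by simpa [Real.norm_eq_abs] using this)).2
    linarith
  obtain ⟨ρ, hρ, hball⟩ := Metric.eventually_nhds_iff_ball.1 hlo2
  have hball' : ∀ y : G, ‖y‖ < ρ → gauge B (x + y) ≤ N + u y + c * ‖y‖ := by
    intro y hy
    exact hball y (by simpa using hy)
  have evpos : ∀ᶠ ε in 𝓝[>] (0 : ℝ), 0 < ε := eventually_mem_nhdsWithin
  have tnd : ∀ f : ℝ → ℝ, Continuous f → Tendsto f (𝓝[>] 0) (𝓝 (f 0)) := fun f hf =>
    (hf.tendsto 0).mono_left nhdsWithin_le_nhds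
  have e1 : ∀ᶠ ε in 𝓝[>] (0 : ℝ), (1 + ε * (h + η')) * (h + η' / 2) < h + η' := by
    have := tnd (fun ε => (1 + ε * (h + η')) * (h + η' / 2)) (by fun_prop)
    refine this.eventually_lt_const ?_
    simp only [zero_mul, add_zero, one_mul]; linarith
  have e2 : ∀ᶠ ε in 𝓝[>] (0 : ℝ), (1 - ε * (h - η')) * (-h + η' / 2) < -h + η' := by
    have := tnd (fun ε => (1 - ε * (h - η')) * (-h + η' / 2)) (by fun_prop)
    refine this.eventually_lt_const ?_
    simp only [zero_mul, sub_zero, one_mul]; linarith
  have e3 : ∀ᶠ ε in 𝓝[>] (0 : ℝ), N * (1 + ε * (h + η')) * ε * C < ρ := by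
    have := tnd (fun ε => N * (1 + ε * (h + η')) * ε * C) (by fun_prop)
    refine this.eventually_lt_const ?_
    simpa using hρ
  have e4 : ∀ᶠ ε in 𝓝[>] (0 : ℝ), N * (1 - ε * (h - η')) * ε * C < ρ := by
    have := tnd (fun ε => N * (1 - ε * (h - η')) * ε * C) (by fun_prop)
    refine this.eventually_lt_const ?_
    simpa using hρ
  have e5 : ∀ᶠ ε in 𝓝[>] (0 : ℝ), 0 < 1 + ε * (h + η') := by
    have := tnd (fun ε => 1 + ε * (h + η')) (by fun_prop)
    refine this.eventually_const_lt ?_
    simp
  have e6 : ∀ᶠ ε in 𝓝[>] (0 : ℝ), 0 < 1 - ε * (h - η') := by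
    have := tnd (fun ε => 1 - ε * (h - η')) (by fun_prop)
    refine this.eventually_const_lt ?_
    simp
  filter_upwards [evpos, e1, e2, e3, e4, e5, e6] with ε hε h1 h2 h3 h4 h5 h6
  -- inner part
  have hl1 : gauge (inn' B M ε) x ≤ N * (1 + ε * (h + η')) := by
    have hpos : 0 < N * (1 + ε * (h + η')) := by positivity
    refine gauge_le_of_mem hpos.le ?_
    rw [mem_smul_set_iff_inv_smul_mem₀ hpos.ne']
    intro m hm
    have hkey : gauge B (x + (N * (1 + ε * (h + η')) * ε) • m) ≤ N * (1 + ε * (h + η')) := by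
      have hn : ‖(N * (1 + ε * (h + η')) * ε) • m‖ ≤ N * (1 + ε * (h + η')) * ε * C := by
        rw [norm_smul, Real.norm_eq_abs, abs_of_pos (by positivity)]
        gcongr
        exact hC m hm
      have := hball' _ (lt_of_le_of_lt hn h3)
      rw [map_smul, smul_eq_mul] at this
      have a1 : N * (1 + ε * (h + η')) * ε * u m ≤ N * (1 + ε * (h + η')) * ε * h := by
        have := hmax' m hm
        gcongr
      have a2 : c * ‖(N * (1 + ε * (h + η')) * ε) • m‖ ≤
          N * (1 + ε * (h + η')) * ε * (η' / 2) := by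
        calc c * ‖(N * (1 + ε * (h + η')) * ε) • m‖ ≤
              c * (N * (1 + ε * (h + η')) * ε * C) := by gcongr
          _ = N * (1 + ε * (h + η')) * ε * (c * C) := by ring
          _ = _ := by rw [hcC]
      have a3 : N * ε * ((1 + ε * (h + η')) * (h + η' / 2)) ≤ N * ε * (h + η') := by
        gcongr
      nlinarith
    have : gauge B ((N * (1 + ε * (h + η')))⁻¹ • x + ε • m) ≤ 1 := by
      have e : (N * (1 + ε * (h + η')))⁻¹ • x + ε • m =
          (N * (1 + ε * (h + η')))⁻¹ • (x + (N * (1 + ε * (h + η')) * ε) • m) := by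
        rw [smul_add, smul_smul]
        congr 2
        field_simp
      rw [e, gauge_smul_of_nonneg (inv_nonneg.2 hpos.le), smul_eq_mul, inv_mul_le_iff₀ hpos,
        mul_one]
      exact hkey
    rwa [gauge_le_one_iff_mem_closure hc hB, hcl.closure_eq] at this
  -- outer part
  have hl2 : gauge (B + ε • M) x ≤ N * (1 - ε * (h - η')) := by
    have hpos : 0 < N * (1 - ε * (h - η')) := by positivity
    refine gauge_le_of_mem hpos.le ?_
    have hkey : gauge B (x + (-(N * (1 - ε * (h - η')) * ε)) • m0) ≤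
        N * (1 - ε * (h - η')) := by
      have hn : ‖(-(N * (1 - ε * (h - η')) * ε)) • m0‖ ≤ N * (1 - ε * (h - η')) * ε * C := by
        rw [norm_smul, norm_neg, Real.norm_eq_abs, abs_of_pos (by positivity)]
        gcongr
        exact hC m0 hm0
      have := hball' _ (lt_of_le_of_lt hn h4)
      rw [map_smul, smul_eq_mul] at this
      have a2 : c * ‖(-(N * (1 - ε * (h - η')) * ε)) • m0‖ ≤
          N * (1 - ε * (h - η')) * ε * (η' / 2) := by
        calc c * ‖(-(N * (1 - ε * (h - η')) * ε)) • m0‖ ≤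
              c * (N * (1 - ε * (h - η')) * ε * C) := by gcongr
          _ = N * (1 - ε * (h - η')) * ε * (c * C) := by ring
          _ = _ := by rw [hcC]
      have a3 : N * ε * ((1 - ε * (h - η')) * (-h + η' / 2)) ≤ N * ε * (-h + η') := by
        gcongr
      nlinarith
    rw [mem_smul_set_iff_inv_smul_mem₀ hpos.ne', Set.mem_add]
    refine ⟨(N * (1 - ε * (h - η')))⁻¹ • (x + (-(N * (1 - ε * (h - η')) * ε)) • m0), ?_,
      ε • m0, smul_mem_smul_set hm0, ?_⟩
    · have : gauge B ((N * (1 - ε * (h - η')))⁻¹ • (x + (-(N * (1 - ε * (h - η')) * ε)) • m0))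
          ≤ 1 := by
        rw [gauge_smul_of_nonneg (inv_nonneg.2 hpos.le), smul_eq_mul, inv_mul_le_iff₀ hpos,
          mul_one]
        exact hkey
      rwa [gauge_le_one_iff_mem_closure hc hB, hcl.closure_eq] at this
    · rw [smul_add, smul_smul, add_assoc, ← add_smul]
      have : (N * (1 - ε * (h - η')))⁻¹ * -(N * (1 - ε * (h - η')) * ε) + ε = 0 := by
        field_simp
        ring
      rw [this, zero_smul, add_zero]
  have : N * (1 + ε * (h + η')) + N * (1 - ε * (h - η')) = 2 * N + η * ε := by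
    rw [hη']; field_simp; ring
  linarith

omit [FiniteDimensional ℝ G] [MeasurableSpace G] [BorelSpace G] in
theorem inn'_convex {B M : Set G} (hc : Convex ℝ B) (ε : ℝ) : Convex ℝ (inn' B M ε) := by
  intro x hx y hy a b ha hb hab m hm
  have := hc (hx m hm) (hy m hm) ha hb hab
  have e : a • x + b • y + ε • m = a • (x + ε • m) + b • (y + ε • m) := by
    have : ε • m = (a + b) • (ε • m) := by rw [hab, one_smul]
    rw [smul_add, smul_add]
    nth_rw 1 [this]
    rw [add_smul]; abel
  rwa [e]

omit [FiniteDimensional ℝ G] [MeasurableSpace G] [BorelSpace G] in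
theorem inn'_closed {B M : Set G} (hcl : IsClosed B) (ε : ℝ) : IsClosed (inn' B M ε) := by
  have : inn' B M ε = ⋂ m ∈ M, (fun x => x + ε • m) ⁻¹' B := by
    ext x; simp [inn']
  rw [this]
  exact isClosed_biInter fun m _ => hcl.preimage (by fun_prop)

/-- Aleksandrov's variational lemma -/
theorem alek {B M : Set G} (hc : Convex ℝ B) (hB : B ∈ 𝓝 (0 : G)) (hcl : IsCompact B)
    (hMc : Convex ℝ M) (hM : IsCompact M) (hM0 : (0 : G) ∈ M) {δ : ℝ} (hδ : 0 < δ) :
    ∃ ε₀ : ℝ, 0 < ε₀ ∧ ∀ ε : ℝ, 0 < ε → ε < ε₀ →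
      (μ B).toReal - (μ (inn' B M ε)).toReal ≤
        (μ (B + ε • M)).toReal - (μ B).toReal + δ * ε := by
  have hcont : Continuous (gauge B) := continuous_gauge hc hB
  obtain ⟨R, hR0, hR⟩ : ∃ R : ℝ, 0 < R ∧ ∀ m ∈ M, gauge B m ≤ R := by
    obtain ⟨R, hR⟩ := (hM.image hcont).isBounded.exists_norm_le
    refine ⟨max R 1, by positivity, fun m hm => ?_⟩
    have := hR _ (mem_image_of_mem _ hm)
    rw [Real.norm_eq_abs] at this
    exact (le_abs_self _).trans (this.trans (le_max_left _ _))
  have habs : Absorbent ℝ B := absorbent_nhds_zero hB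
  have hle1 : ∀ x, gauge B x ≤ 1 → x ∈ B := by
    intro x hx
    rwa [gauge_le_one_iff_mem_closure hc hB, hcl.isClosed.closure_eq] at hx
  -- the inner body
  have hsub : ∀ ε : ℝ, 0 < ε → ε * R < 1 → (1 - ε * R) • B ⊆ inn' B M ε := by
    intro ε hε hεR x hx m hm
    have h1 : gauge B x ≤ 1 - ε * R := gauge_le_of_mem (by linarith) hx
    apply hle1
    calc gauge B (x + ε • m) ≤ gauge B x + gauge B (ε • m) := gauge_add_le hc habs _ _
      _ ≤ (1 - ε * R) + ε * R := by
          rw [gauge_smul_of_nonneg hε.le, smul_eq_mul]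
          have := hR m hm
          gcongr
      _ = 1 := by ring
  have hinn0 : ∀ ε : ℝ, 0 < ε → ε * R < 1 → inn' B M ε ∈ 𝓝 (0 : G) := by
    intro ε hε hεR
    refine Filter.mem_of_superset ?_ (hsub ε hε hεR)
    have := smul_mem_nhds_smul₀ (c := 1 - ε * R) (by linarith) hB
    rwa [smul_zero] at this
  have hinnB : ∀ ε : ℝ, inn' B M ε ⊆ B := by
    intro ε x hx
    have := hx 0 hM0
    rwa [smul_zero, add_zero] at this
  have hinnc : ∀ ε : ℝ, IsCompact (inn' B M ε) := fun ε =>
    hcl.of_isClosed_subset (inn'_closed hcl.isClosed ε) (hinnB ε)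
  have hinngauge : ∀ ε : ℝ, 0 < ε → ε * R < 1 → ∀ x,
      gauge (inn' B M ε) x ≤ (1 - ε * R)⁻¹ * gauge B x := by
    intro ε hε hεR x
    have h1 := gauge_mono (s := (1 - ε * R) • B) (t := inn' B M ε) ?_ (hsub ε hε hεR) x
    · rw [gauge_smul_left_of_nonneg (by linarith)] at h1
      simpa using h1
    · refine absorbent_nhds_zero ?_
      have := smul_mem_nhds_smul₀ (c := 1 - ε * R) (by linarith) hB
      rwa [smul_zero] at this
  -- the outer body
  have houtsub : ∀ ε : ℝ, B ⊆ B + ε • M := by
    intro ε x hx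
    rw [Set.mem_add]
    exact ⟨x, hx, 0, by simpa using smul_mem_smul_set (a := ε) hM0, by simp⟩
  have hout0 : ∀ ε : ℝ, B + ε • M ∈ 𝓝 (0 : G) := fun ε => Filter.mem_of_superset hB (houtsub ε)
  have houtc : ∀ ε : ℝ, Convex ℝ (B + ε • M) := fun ε => hc.add (hMc.smul ε)
  have houtk : ∀ ε : ℝ, IsCompact (B + ε • M) := fun ε => hcl.add (hM.smul ε)
  have houtgauge : ∀ ε : ℝ, ∀ x, gauge (B + ε • M) x ≤ gauge B x := fun ε x =>
    gauge_mono habs (houtsub ε) x
  -- the dominated convergence
  set Φ : ℝ → G → ℝ := fun ε x => Real.exp (-gauge B x) *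
    max 0 ((gauge (inn' B M ε) x + gauge (B + ε • M) x - 2 * gauge B x) / ε) with hΦ
  have hevR : ∀ᶠ ε in 𝓝[>] (0 : ℝ), 0 < ε ∧ ε * R < 1 / 2 := by
    have e1 : ∀ᶠ ε in 𝓝[>] (0 : ℝ), 0 < ε := eventually_mem_nhdsWithin
    have e2 : ∀ᶠ ε in 𝓝[>] (0 : ℝ), ε * R < 1 / 2 := by
      have : Tendsto (fun ε : ℝ => ε * R) (𝓝[>] 0) (𝓝 (0 * R)) :=
        ((continuous_id.mul continuous_const).tendsto 0).mono_left nhdsWithin_le_nhds
      refine this.eventually_lt_const ?_
      simp
    exact e1.and e2
  have hbound : ∀ ε : ℝ, 0 < ε → ε * R < 1 / 2 → ∀ x, ‖Φ ε x‖ ≤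
      4 * R * Real.exp (-gauge ((2 : ℝ) • B) x) := by
    intro ε hε hεR x
    have hN := gauge_nonneg (s := B) x
    have h1 : gauge ((2 : ℝ) • B) x = gauge B x / 2 := by
      rw [gauge_smul_left_of_nonneg (by norm_num)]
      simp [div_eq_inv_mul]
    rw [h1]
    have h2 : max 0 ((gauge (inn' B M ε) x + gauge (B + ε • M) x - 2 * gauge B x) / ε) ≤
        2 * R * gauge B x := by
      refine max_le (by positivity) ?_
      rw [div_le_iff₀ hε]
      have a1 := hinngauge ε hε (by linarith) x
      have a2 := houtgauge ε x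
      have a3 : (1 - ε * R)⁻¹ ≤ 1 + 2 * (ε * R) := by
        have hpos : 0 < ε * R := by positivity
        rw [inv_le_iff_one_le_mul₀ (by linarith)]
        nlinarith
      have a4 : (1 - ε * R)⁻¹ * gauge B x ≤ (1 + 2 * (ε * R)) * gauge B x := by gcongr
      nlinarith
    rw [Real.norm_eq_abs, hΦ]
    simp only
    rw [abs_of_nonneg (by positivity)]
    have h3 : gauge B x / 2 ≤ Real.exp (gauge B x / 2) := by
      have := Real.add_one_le_exp (gauge B x / 2); linarith
    have h4 : Real.exp (-gauge B x) * Real.exp (gauge B x / 2) = Real.exp (-(gauge B x / 2)) := by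
      rw [← Real.exp_add]; congr 1; ring
    calc Real.exp (-gauge B x) *
          max 0 ((gauge (inn' B M ε) x + gauge (B + ε • M) x - 2 * gauge B x) / ε)
        ≤ Real.exp (-gauge B x) * (2 * R * gauge B x) := by gcongr
      _ = 4 * R * (Real.exp (-gauge B x) * (gauge B x / 2)) := by ring
      _ ≤ 4 * R * (Real.exp (-gauge B x) * Real.exp (gauge B x / 2)) := by gcongr
      _ = _ := by rw [h4]
  have htend : Tendsto (fun ε => ∫ x, Φ ε x ∂μ) (𝓝[>] 0) (𝓝 (∫ _x : G, (0 : ℝ) ∂μ)) := by
    refine tendsto_integral_filter_of_dominated_convergence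
      (fun x => 4 * R * Real.exp (-gauge ((2 : ℝ) • B) x)) ?_ ?_ ?_ ?_
    · filter_upwards [hevR] with ε hε
      have c1 : Continuous (gauge (inn' B M ε)) :=
        continuous_gauge (inn'_convex hc ε) (hinn0 ε hε.1 (by linarith [hε.2]))
      have c2 : Continuous (gauge (B + ε • M)) := continuous_gauge (houtc ε) (hout0 ε)
      have : Continuous (Φ ε) := by
        rw [hΦ]; fun_prop
      exact this.aestronglyMeasurable
    · filter_upwards [hevR] with ε hε
      exact Eventually.of_forall (hbound ε hε.1 hε.2)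
    · refine Integrable.const_mul ?_ _
      refine integrable_gauge μ (hc.smul 2) (hcl.smul 2) ?_
      have := smul_mem_nhds_smul₀ (c := (2 : ℝ)) (by norm_num) hB
      rwa [smul_zero] at this
    · obtain ⟨r, hr0, hr⟩ := Metric.mem_nhds_iff.1 hB
      have hlip : LipschitzWith (⟨r, hr0.le⟩ : ℝ≥0)⁻¹ (gauge B) :=
        hc.lipschitzWith_gauge (r := ⟨r, hr0.le⟩) (by exact_mod_cast hr0) hr
      filter_upwards [hlip.ae_differentiableAt (μ := μ)] with x hx
      rcases (gauge_nonneg (s := B) x).eq_or_lt with h0 | h0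
      · -- gauge zero
        refine tendsto_nhds_of_eventually_eq ?_
        filter_upwards [hevR] with ε hε
        have b1 : gauge (inn' B M ε) x ≤ 0 := by
          have := hinngauge ε hε.1 (by linarith [hε.2]) x
          rwa [← h0, mul_zero] at this
        have b2 := houtgauge ε x
        rw [← h0] at b2
        rw [hΦ]
        simp only
        rw [max_eq_left, mul_zero]
        refine div_nonpos_of_nonpos_of_nonneg ?_ hε.1.le
        rw [← h0]; linarith
      · rw [Metric.tendsto_nhds]
        intro η hη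
        filter_upwards [pw hc hB hcl.isClosed hM hM0 h0 hx (half_pos hη), hevR] with ε h1 h2
        rw [Real.dist_eq, sub_zero, hΦ]
        simp only
        rw [abs_of_nonneg (by positivity)]
        have h3 : max 0 ((gauge (inn' B M ε) x + gauge (B + ε • M) x - 2 * gauge B x) / ε) ≤
            η / 2 := by
          refine max_le (by positivity) ?_
          rw [div_le_iff₀ h2.1]; linarith
        have h4 : Real.exp (-gauge B x) ≤ 1 := by
          rw [Real.exp_le_one_iff]; linarith
        calc Real.exp (-gauge B x) *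
              max 0 ((gauge (inn' B M ε) x + gauge (B + ε • M) x - 2 * gauge B x) / ε)
            ≤ 1 * (η / 2) := by gcongr
          _ < η := by linarith
  rw [integral_zero] at htend
  set n := finrank ℝ G with hn
  have hfac : (0 : ℝ) < (n.factorial : ℝ) := by exact_mod_cast n.factorial_pos
  have hev := (htend.eventually_lt_const (show (0 : ℝ) < n.factorial * δ by positivity)).and hevR
  obtain ⟨ε₀, hε₀, hIoo⟩ := mem_nhdsGT_iff_exists_Ioo_subset.1 hev
  refine ⟨ε₀, hε₀, fun ε hε hεlt => ?_⟩
  obtain ⟨hI, -, hεR⟩ := hIoo ⟨hε, hεlt⟩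
  have hεR1 : ε * R < 1 := by linarith
  have i0 := integrable_gauge μ hc hcl hB
  have i1 := integrable_gauge μ (inn'_convex hc ε) (hinnc ε) (hinn0 ε hε hεR1)
  have i2 := integrable_gauge μ (houtc ε) (houtk ε) (hout0 ε)
  have v0 := int_gauge μ hc hcl hB
  have v1 := int_gauge μ (inn'_convex hc ε) (hinnc ε) (hinn0 ε hε hεR1)
  have v2 := int_gauge μ (houtc ε) (houtk ε) (hout0 ε)
  have hΦi : Integrable (Φ ε) μ := by
    have c1 : Continuous (gauge (inn' B M ε)) :=
      continuous_gauge (inn'_convex hc ε) (hinn0 ε hε hεR1)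
    have c2 : Continuous (gauge (B + ε • M)) := continuous_gauge (houtc ε) (hout0 ε)
    have c3 : Continuous (Φ ε) := by
      rw [hΦ]; fun_prop
    refine Integrable.mono' (g := fun x => 4 * R * Real.exp (-gauge ((2 : ℝ) • B) x)) ?_
      c3.aestronglyMeasurable (Eventually.of_forall (hbound ε hε hεR))
    refine Integrable.const_mul ?_ _
    refine integrable_gauge μ (hc.smul 2) (hcl.smul 2) ?_
    have := smul_mem_nhds_smul₀ (c := (2 : ℝ)) (by norm_num) hB
    rwa [smul_zero] at this
  have hint : ∫ x, (2 * Real.exp (-gauge B x) - Real.exp (-gauge (inn' B M ε) x) -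
      Real.exp (-gauge (B + ε • M) x)) ∂μ ≤ ∫ x, ε * Φ ε x ∂μ := by
    refine integral_mono (((i0.const_mul 2).sub i1).sub i2) (hΦi.const_mul ε) fun x => ?_
    simp only [hΦ]
    have p0 := Real.exp_pos (-gauge B x)
    have q1 : Real.exp (-gauge B x) * (1 - (gauge (inn' B M ε) x - gauge B x)) ≤
        Real.exp (-gauge (inn' B M ε) x) := by
      have := Real.add_one_le_exp (-(gauge (inn' B M ε) x - gauge B x))
      calc Real.exp (-gauge B x) * (1 - (gauge (inn' B M ε) x - gauge B x)) ≤
            Real.exp (-gauge B x) * Real.exp (-(gauge (inn' B M ε) x - gauge B x)) := by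
            gcongr; linarith
        _ = _ := by rw [← Real.exp_add]; congr 1; ring
    have q2 : Real.exp (-gauge B x) * (1 - (gauge (B + ε • M) x - gauge B x)) ≤
        Real.exp (-gauge (B + ε • M) x) := by
      have := Real.add_one_le_exp (-(gauge (B + ε • M) x - gauge B x))
      calc Real.exp (-gauge B x) * (1 - (gauge (B + ε • M) x - gauge B x)) ≤
            Real.exp (-gauge B x) * Real.exp (-(gauge (B + ε • M) x - gauge B x)) := by
            gcongr; linarith
        _ = _ := by rw [← Real.exp_add]; congr 1; ring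
    have q3 : ε * (Real.exp (-gauge B x) *
        ((gauge (inn' B M ε) x + gauge (B + ε • M) x - 2 * gauge B x) / ε)) =
        Real.exp (-gauge B x) *
          (gauge (inn' B M ε) x + gauge (B + ε • M) x - 2 * gauge B x) := by
      field_simp
    have q4 : ε * (Real.exp (-gauge B x) *
        ((gauge (inn' B M ε) x + gauge (B + ε • M) x - 2 * gauge B x) / ε)) ≤
        ε * (Real.exp (-gauge B x) *
        max 0 ((gauge (inn' B M ε) x + gauge (B + ε • M) x - 2 * gauge B x) / ε)) := by
      gcongr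
      exact le_max_right _ _
    nlinarith
  have i01 : Integrable (fun x => 2 * Real.exp (-gauge B x) -
      Real.exp (-gauge (inn' B M ε) x)) μ := (i0.const_mul 2).sub i1
  rw [integral_sub i01 i2, integral_sub (i0.const_mul 2) i1,
    integral_const_mul, integral_const_mul, v0, v1, v2] at hint
  have hfin : ε * ∫ x, Φ ε x ∂μ ≤ ε * (n.factorial * δ) := by
    gcongr
  have : (n.factorial : ℝ) * (2 * (μ B).toReal - (μ (inn' B M ε)).toReal -
      (μ (B + ε • M)).toReal) ≤ n.factorial * (δ * ε) := by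
    nlinarith
  have := le_of_mul_le_mul_left this hfac
  linarith

/-- part X1 (Aleksandrov's variational lemma); `inn'` has the body of `Helper2.M3.inn` -/
theorem X1' (B M : ConvexBody G) (hB : (0 : G) ∈ interior (B : Set G)) (hM : (0 : G) ∈ M)
    {δ : ℝ} (hδ : 0 < δ) : ∃ ε₀ : ℝ, 0 < ε₀ ∧ ∀ ε : ℝ, 0 < ε → ε < ε₀ →
      (μ (B : Set G)).toReal - (μ (inn' (B : Set G) M ε)).toReal ≤
        (μ ((B : Set G) + ε • (M : Set G))).toReal - (μ (B : Set G)).toReal + δ * ε :=
  alek μ B.convex (mem_interior_iff_mem_nhds.1 hB) B.isCompact M.convex M.isCompact hM hδ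

end Pool.Agent.Helper84.MB
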