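import Pool.Agent.Helper2.M3.Defs
import Pool.Agent.Helper84.MB.X1core

/-!
# Part X1 of the MB blueprint: Aleksandrov's variational lemma
-/

set_option autoImplicit false

open MeasureTheory Set Module
open scoped Pointwise

noncomputable section

namespace Pool.Agent.Helper84.MB

variable {G : Type*} [NormedAddCommGroup G] [NormedSpace ℝ G] [FiniteDimensional ℝ G]
  [MeasurableSpace G] [BorelSpace G] (μ : Measure G) [μ.IsAddHaarMeasure]

/-- X1 (Aleksandrov's variational lemma) -/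
theorem X1 (B M : ConvexBody G) (hB : (0 : G) ∈ interior (B : Set G)) (hM : (0 : G) ∈ M)
    {δ : ℝ} (hδ : 0 < δ) : ∃ ε₀ : ℝ, 0 < ε₀ ∧ ∀ ε : ℝ, 0 < ε → ε < ε₀ →
      (μ (B : Set G)).toReal - (μ (Helper2.M3.inn (B : Set G) M ε)).toReal ≤
        (μ ((B : Set G) + ε • (M : Set G))).toReal - (μ (B : Set G)).toReal + δ * ε :=
  X1' μ B M hB hM hδ

end Pool.Agent.Helper84.MB
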